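import Pool.Agent.Lib.MP_1e748d_nt.Vb.Old

set_option autoImplicit false

open Pool.Agent.Lib.MP_1e748d_nt.Va Pool.Agent.Lib.MP_1e748d_nt.Vb Pointwise in
/-- For a suitable `ε` depending only on `p`, `B`, `b` and `k`, every interval of length at most
`4 + ε` contains only finitely many conjugate sets of degree at most `k` over a Galois extension
`M` of a number field `K` of degree at most `B` in which, for one prime `P` above `p`, the `b`-th
powers of a subgroup of relative index at most `B` in the decomposition group are central, apart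
from those lying in a subinterval `[n, n + 4]` with `n` an integer. -/
theorem Pool.Agent.Results.MP_1e748d_nt.CentralPlace.result (p B b k : ℕ) (hp : p.Prime)
    (hb : ¬ p ∣ b) :
    ∃ ε : ℝ, 0 < ε ∧ ∀ s t : ℝ, t ≤ s + 4 + ε →
      Set.Finite {f : Polynomial ℤ | f.Monic ∧ Irreducible f ∧
        Multiset.card (f.map (algebraMap ℤ ℝ)).roots = f.natDegree ∧
        (∀ x ∈ (f.map (algebraMap ℤ ℝ)).roots, x ∈ Set.Icc s t) ∧
        (∃ (M : IntermediateField ℚ ℂ) (K : IntermediateField ℚ M), FiniteDimensional ℚ K ∧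
          Module.finrank ℚ K ≤ B ∧ IsGalois K M ∧
          (∃ (P : Ideal (NumberField.RingOfIntegers M)) (C : Subgroup (M ≃ₐ[K] M)),
            P.IsPrime ∧ (p : NumberField.RingOfIntegers M) ∈ P ∧
            0 < C.relIndex (MulAction.stabilizer (M ≃ₐ[K] M) P) ∧
            C.relIndex (MulAction.stabilizer (M ≃ₐ[K] M) P) ≤ B ∧
            ∀ g ∈ C, ∀ h : M ≃ₐ[K] M, g ^ b * h = h * g ^ b) ∧
          ∃ q : Polynomial M, q ∣ f.map (algebraMap ℤ M) ∧ 0 < q.natDegree ∧ q.natDegree ≤ k) ∧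
        ¬ ∃ n : ℤ, s ≤ n ∧ n + 4 ≤ t ∧
          ∀ x ∈ (f.map (algebraMap ℤ ℝ)).roots, x ∈ Set.Icc (n : ℝ) (n + 4)} := by
  obtain ⟨ε, hε, D, h⟩ := unif2 p (B * B) b k hp hb
  refine ⟨ε, hε, fun s t hst => ?_⟩
  have s1 := Int.ceil_lt_add_one s
  have s2 := Int.le_ceil s
  have t1 := Int.lt_floor_add_one t
  have t2 := Int.floor_le t
  obtain ⟨D1, h1⟩ := non2 (c := (⌈s⌉ - 1 + s) / 2 + 2)
    (main_mid (k := ⌈s⌉ + 1) (by push_cast; linarith) (by push_cast; linarith)) p (B * B) b k hp hb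
  obtain ⟨D2, h2⟩ := non2 (c := (⌊t⌋ + 1 + t) / 2 - 2)
    (main_mid (k := ⌊t⌋ - 2) (by push_cast; linarith) (by push_cast; linarith)) p (B * B) b k hp hb
  refine (main_fin (D + D1 + D2) (|s| + |t|)).subset ?_
  rintro f ⟨hm, hi, hs, hr, hM, hn⟩
  refine ⟨hm, not_lt.mp fun hD => ?_, hs, fun x hx => ?_⟩
  · obtain ⟨m, -, hk⟩ := abs2 hp (h (s + 2)) hm hi hs (fun x hx => by
      obtain ⟨u1, u2⟩ := hr x hx
      rw [abs_le]
      constructor <;> linarith) hM (by omega)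
    by_cases c1 : s ≤ ((m - 2 : ℤ) : ℝ)
    · by_cases c2 : ((m - 2 : ℤ) : ℝ) + 4 ≤ t
      · refine hn ⟨m - 2, c1, c2, fun x hx => ?_⟩
        obtain ⟨u1, u2⟩ := abs_le.mp (hk x hx)
        constructor <;> push_cast <;> linarith
      · have c3 : ⌊t⌋ < m + 2 := Int.floor_lt.mpr (by push_cast at c2 ⊢; linarith)
        have c4 : (⌊t⌋ : ℝ) + 1 ≤ m + 2 := by exact_mod_cast c3
        obtain ⟨-, u, -⟩ := abs2 hp h2 hm hi hs (fun x hx => by
          obtain ⟨u1, u2⟩ := hr x hx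
          obtain ⟨u3, u4⟩ := abs_le.mp (hk x hx)
          rw [abs_le]
          constructor <;> linarith) hM (by omega)
        exact u
    · have c3 : m - 2 < ⌈s⌉ := Int.lt_ceil.mpr (not_le.mp c1)
      have c4 : (m : ℝ) - 2 + 1 ≤ ⌈s⌉ := by exact_mod_cast c3
      obtain ⟨-, u, -⟩ := abs2 hp h1 hm hi hs (fun x hx => by
        obtain ⟨u1, u2⟩ := hr x hx
        obtain ⟨u3, u4⟩ := abs_le.mp (hk x hx)
        rw [abs_le]
        constructor <;> linarith) hM (by omega)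
      exact u
  · obtain ⟨u1, u2⟩ := hr x hx
    rw [abs_le]
    constructor <;> linarith [le_abs_self t, neg_abs_le s, abs_nonneg s, abs_nonneg t]

/-- Special case: Galois extensions of the rationals whose group has a subgroup `H` of index at
most `B` in which all `b`-th powers are central. -/
theorem Pool.Agent.Results.MP_1e748d_nt.CentralPlace.smallSpan (B b k : ℕ) (hb : 0 < b) :
    ∃ ε : ℝ, 0 < ε ∧ ∀ s t : ℝ, t ≤ s + 4 + ε →
      Set.Finite {p : Polynomial ℤ | p.Monic ∧ Irreducible p ∧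
        Multiset.card (p.map (algebraMap ℤ ℝ)).roots = p.natDegree ∧
        (∀ x ∈ (p.map (algebraMap ℤ ℝ)).roots, x ∈ Set.Icc s t) ∧
        (∃ M : IntermediateField ℚ ℂ, IsGalois ℚ M ∧
          (∃ H : Subgroup (M ≃ₐ[ℚ] M), 0 < H.index ∧ H.index ≤ B ∧
            ∀ g ∈ H, ∀ h ∈ H, g ^ b * h = h * g ^ b) ∧
          ∃ q : Polynomial M, q ∣ p.map (algebraMap ℤ M) ∧ 0 < q.natDegree ∧ q.natDegree ≤ k) ∧
        ¬ ∃ n : ℤ, s ≤ n ∧ n + 4 ≤ t ∧
          ∀ x ∈ (p.map (algebraMap ℤ ℝ)).roots, x ∈ Set.Icc (n : ℝ) (n + 4)} := by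
  obtain ⟨l, hbl, hl⟩ := Nat.exists_infinite_primes (b + 1)
  obtain ⟨ε, hε, h⟩ := Pool.Agent.Results.MP_1e748d_nt.CentralPlace.result l B b k hl
    fun h => by have := Nat.le_of_dvd hb h; omega
  refine ⟨ε, hε, fun s t hst => (h s t hst).subset ?_⟩
  rintro f ⟨hm, hi, hs, hr, ⟨M, hM, ⟨H, h0, hB, hH⟩, hq⟩, hn⟩
  obtain ⟨K, k1, k2, k3, k4⟩ := Pool.Agent.Lib.MP_1e748d_nt.Vb.old_class hl M H h0 hB hH
  exact ⟨hm, hi, hs, hr, ⟨M, K, k1, k2, k3, k4, hq⟩, hn⟩
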