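import Pool.Agent.Lib.MP_1e748d_nt.Sz.Main

set_option autoImplicit false

open Polynomial Pool.Agent.Lib.MP_1e748d_nt.Sz in
/-- A monic integer polynomial of degree `d` with all roots real and within `1 / (10 ^ 10 * d)` of
an interval `[n, n + 4]`, `n` an integer, has all its roots in `[n, n + 4]`. -/
theorem Pool.Agent.Results.MP_1e748d_nt.HouseGap.result (n : ℤ) (p : Polynomial ℤ) (hm : p.Monic)
    (hs : Multiset.card (p.map (algebraMap ℤ ℝ)).roots = p.natDegree)
    (hr : ∀ x ∈ (p.map (algebraMap ℤ ℝ)).roots, x ∈ Set.Icc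
      ((n : ℝ) - 1 / (10 ^ 10 * (p.natDegree : ℝ))) ((n : ℝ) + 4 + 1 / (10 ^ 10 * (p.natDegree : ℝ)))) :
    ∀ x ∈ (p.map (algebraMap ℤ ℝ)).roots, x ∈ Set.Icc (n : ℝ) ((n : ℝ) + 4) := by
  intro x hx
  have h1 := prod_multiset_X_sub_C_of_monic_of_roots_card_eq (hm.map (algebraMap ℤ ℝ))
    (by rw [hs, hm.natDegree_map])
  have h2 := core (P := p.comp (X + C (n + 2)))
    (A := (p.map (algebraMap ℤ ℝ)).roots.map fun a => a - ((n + 2 : ℤ) : ℝ)) (by
      rw [← FF_shift, FF, h1, map_comp, Polynomial.map_add, map_X, map_C]; rfl) (fun a ha => by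
      obtain ⟨y, hy, rfl⟩ := Multiset.mem_map.mp ha
      obtain ⟨u1, u2⟩ := hr y hy
      rw [Multiset.card_map, hs, abs_le]
      constructor <;> push_cast <;> linarith) _ (Multiset.mem_map_of_mem _ hx)
  rw [abs_le] at h2
  push_cast at h2
  constructor <;> linarith [h2.1, h2.2]
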