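import Pool.Agent.Lib.MP_1e748d_nt.TtG

set_option autoImplicit false

/-- For large `d` and `128 (log d)^(1/3) / d^(2/3) ≤ s ≤ 4`, the number of conjugate sets of degree
`d` in any interval of length `4 + s` is `(1 + s/4)^(d(d+1)/2)` up to a factor
`exp (3 d^(4/3) (log d)^(1/3))`; in particular it is not zero. -/
theorem Pool.Agent.Results.MP_1e748d_nt.TwoThirds.result :
    ∃ d₀ : ℕ, ∀ d : ℕ, d₀ ≤ d → ∀ a s : ℝ,
      128 * Real.log d ^ (1 / 3 : ℝ) / (d : ℝ) ^ (2 / 3 : ℝ) ≤ s → s ≤ 4 → ∀ N : ℕ,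
        N = Set.ncard {p : Polynomial ℤ | p.Monic ∧ Irreducible p ∧ p.natDegree = d ∧
          Multiset.card (p.map (algebraMap ℤ ℝ)).roots = p.natDegree ∧
          ∀ x ∈ (p.map (algebraMap ℤ ℝ)).roots, x ∈ Set.Icc a (a + 4 + s)} →
        (1 + s / 4) ^ (d * (d + 1) / 2) *
            Real.exp (-(3 * (d : ℝ) ^ (4 / 3 : ℝ) * Real.log d ^ (1 / 3 : ℝ))) ≤ N ∧
          (N : ℝ) ≤ (1 + s / 4) ^ (d * (d + 1) / 2) *
            Real.exp (3 * (d : ℝ) ^ (4 / 3 : ℝ) * Real.log d ^ (1 / 3 : ℝ)) :=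
  Pool.Agent.Lib.MP_1e748d_nt.Tt.two_sided

/-- Every interval of length `4 + 128 (log d)^(1/3) / d^(2/3)` contains a conjugate set of degree
`d`, for every large `d`. -/
theorem Pool.Agent.Results.MP_1e748d_nt.TwoThirds.exists_set :
    ∃ d₀ : ℕ, ∀ d : ℕ, d₀ ≤ d → ∀ a s : ℝ,
      128 * Real.log d ^ (1 / 3 : ℝ) / (d : ℝ) ^ (2 / 3 : ℝ) ≤ s → s ≤ 4 →
        ∃ p : Polynomial ℤ, p.Monic ∧ Irreducible p ∧ p.natDegree = d ∧
          Multiset.card (p.map (algebraMap ℤ ℝ)).roots = p.natDegree ∧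
          ∀ x ∈ (p.map (algebraMap ℤ ℝ)).roots, x ∈ Set.Icc a (a + 4 + s) := by
  obtain ⟨d₀, h⟩ := Pool.Agent.Results.MP_1e748d_nt.TwoThirds.result
  refine ⟨d₀, fun d hd a s h1 h2 => ?_⟩
  have h0 : 0 ≤ s := le_trans (by have := Real.log_natCast_nonneg d; positivity) h1
  exact Set.nonempty_of_ncard_ne_zero
    (Nat.cast_pos.1 (lt_of_lt_of_le (by positivity) (h d hd a s h1 h2 _ rfl).1)).ne'
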