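import Pool.Agent.Lib.MP_1e748d_nt.UMain

set_option autoImplicit false

/-- The case of a fixed interval of length `4` with non-integer end points. -/
theorem Pool.Agent.Results.MP_1e748d_nt.UniformMass.fixed (a : ℝ) (ha : ∀ n : ℤ, a ≠ (n : ℝ))
    (m : ℕ) :
    ∃ S : Finset ℝ, ∀ μ : MeasureTheory.Measure ℝ, μ Set.univ ≤ (m : ENNReal) →
      μ (Set.Icc a (a + 4))ᶜ = 0 → (∀ k : ℕ, ∃ n : ℤ, ∫ x, x ^ k ∂μ = (n : ℝ)) →
      μ (↑S : Set ℝ)ᶜ = 0 :=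
  Pool.Agent.Lib.MP_1e748d_nt.B.fin_supp ha m

/-- A measure of mass at most `m` with integer moments, carried by some interval of length
`4 + ε`, is carried by an integer translate of one finite set or by an interval `[n, n+4]` with
`n` an integer. -/
theorem Pool.Agent.Results.MP_1e748d_nt.UniformMass.result (m : ℕ) :
    ∃ ε : ℝ, 0 < ε ∧ ∃ S : Finset ℝ, ∀ (s : ℝ) (μ : MeasureTheory.Measure ℝ),
      μ Set.univ ≤ (m : ENNReal) → μ (Set.Icc s (s + 4 + ε))ᶜ = 0 →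
      (∀ k : ℕ, ∃ n : ℤ, ∫ x, x ^ k ∂μ = (n : ℝ)) →
      ∃ n : ℤ, μ {x : ℝ | x - (n : ℝ) ∉ S} = 0 ∨ μ (Set.Icc (n : ℝ) ((n : ℝ) + 4))ᶜ = 0 := by
  obtain ⟨ε, hε, S, h⟩ := Pool.Agent.Lib.MP_1e748d_nt.U.unif m
  exact ⟨ε, hε, S, fun s μ h1 h2 h3 => h s μ ⟨h1, h2, h3⟩⟩
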